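import Pool.Agent.W593.IR.Stm3

set_option autoImplicit false

/-! # IR3-CHJ4: chord inequalities for `k = 4` -/

namespace Pool.Agent.W680.IR

open Pool.Agent.W593.IR

/-- the data at the index `j + 1` in terms of the ratio `v = u (j+1) / H (j+1)` -/
lemma ratio {k : ℕ} {u H : ℕ → ℝ} (h : SQ k u H) (j : ℕ) (hj : j < k) (hk : 0 < k) :
    ∃ v : ℝ, 0 < v ∧ 1 ≤ (k : ℝ) * v ∧ ((j : ℝ) + 1) * v ≤ 1 ∧ u (j + 1) = v * H (j + 1) ∧
      (j : ℝ) + 1 ≤ H (j + 1) ∧ H (j + 1) * (1 - v) ≤ H j ∧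
      ∀ m : ℕ, j + 1 ≤ m → (m : ℝ) * v ≤ 1 →
        (m : ℝ) * (1 - v) ^ (m - (j + 1)) ≤ H (j + 1) := by
  have hj1 : (0 : ℝ) ≤ (j : ℝ) := Nat.cast_nonneg j
  have hk0 : (0 : ℝ) < (k : ℝ) := by exact_mod_cast hk
  have h0 : (j : ℝ) + 1 ≤ H (j + 1) := by
    have := h.h0 (j + 1) (by omega)
    push_cast at this
    exact this
  have h1 := h.h1 (j + 1) (by omega)
  have hst := h.st j hj
  have hu1 := h.u1 (j + 1) (by omega)
  have hHpos : 0 < H (j + 1) := by linarith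
  have hUpos : 0 < u (j + 1) := by
    by_contra hc
    have : (k : ℝ) * u (j + 1) ≤ 0 := mul_nonpos_of_nonneg_of_nonpos hk0.le (not_lt.1 hc)
    linarith
  have hv0 : 0 < u (j + 1) / H (j + 1) := div_pos hUpos hHpos
  have huv : u (j + 1) = u (j + 1) / H (j + 1) * H (j + 1) := by
    field_simp
  refine ⟨u (j + 1) / H (j + 1), hv0, ?_, ?_, huv, h0, ?_, ?_⟩
  · rw [← mul_div_assoc, le_div_iff₀ hHpos]
    linarith
  · rw [← mul_div_assoc, div_le_one hHpos]
    nlinarith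
  · have : H (j + 1) * (1 - u (j + 1) / H (j + 1)) = H (j + 1) - u (j + 1) := by
      field_simp
    rw [this]
    linarith
  · intro m hm hmv
    have hm0 : (0 : ℝ) ≤ (m : ℝ) := Nat.cast_nonneg m
    have hm1 : (1 : ℝ) ≤ (m : ℝ) := by exact_mod_cast (by omega : 1 ≤ m)
    have hg : (m : ℝ) ≤ H (j + 1) / u (j + 1) := by
      rw [le_div_iff₀ hUpos]
      rw [← mul_div_assoc, div_le_one hHpos] at hmv
      exact hmv
    have := h.ch (j + 1) (by omega) m hm (H (j + 1) / u (j + 1)) hg (hm1.trans hg) hUpos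
      (le_of_eq (by field_simp))
    rw [one_div_div] at this
    exact this

theorem chj4 : S_CHJ4 := by
  intro u H h
  obtain ⟨v, hv0, hv4, hv1, huv, hH, hst, hch⟩ := ratio h 0 (by norm_num) (by norm_num)
  obtain ⟨w, hw0, hw4, hw1, huw, hH', hst', hch'⟩ := ratio h 1 (by norm_num) (by norm_num)
  norm_num at hv4 hv1 huv hH hst hw4 hw1 huw hH' hst'
  have key : ∀ a b : ℝ, 0 ≤ b → b ≤ 1 →
      (1 / 2 ≤ v → a ≤ v + b * (1 - v)) →
      (1 / 3 ≤ v → v ≤ 1 / 2 → a ≤ 2 * (1 - v) * (v + b * (1 - v))) →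
      (1 / 4 ≤ v → v ≤ 1 / 3 → a ≤ 3 * (1 - v) ^ 2 * (v + b * (1 - v))) → a ≤ u 1 + b * H 0 := by
    intro a b hb0 hb1 h1 h2 h3
    have hv1' : 0 ≤ 1 - v := by linarith
    have hnn : 0 ≤ v + b * (1 - v) := by positivity
    have hlow : H 1 * (v + b * (1 - v)) ≤ u 1 + b * H 0 := by
      rw [huv]
      nlinarith [mul_le_mul_of_nonneg_left hst hb0]
    refine le_trans ?_ hlow
    rcases le_total (1 / 2) v with hc | hc
    · refine (h1 hc).trans ?_
      nlinarith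
    · rcases le_total (1 / 3) v with hc2 | hc2
      · have h4 := hch 2 (by norm_num) (by push_cast; linarith)
        norm_num at h4
        refine (h2 hc2 hc).trans ?_
        exact mul_le_mul_of_nonneg_right h4 hnn
      · have h4 := hch 3 (by norm_num) (by push_cast; linarith)
        norm_num at h4
        refine (h3 (by linarith) hc2).trans ?_
        exact mul_le_mul_of_nonneg_right h4 hnn
  have key' : ∀ a b : ℝ, 0 ≤ b → b ≤ 1 →
      (1 / 3 ≤ w → w ≤ 1 / 2 → a ≤ 2 * (w + b * (1 - w))) →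
      (1 / 4 ≤ w → w ≤ 1 / 3 → a ≤ 3 * (1 - w) * (w + b * (1 - w))) → a ≤ u 2 + b * H 1 := by
    intro a b hb0 hb1 h2 h3
    have hw1' : 0 ≤ 1 - w := by linarith
    have hnn : 0 ≤ w + b * (1 - w) := by positivity
    have hlow : H 2 * (w + b * (1 - w)) ≤ u 2 + b * H 1 := by
      rw [huw]
      nlinarith [mul_le_mul_of_nonneg_left hst' hb0]
    refine le_trans ?_ hlow
    rcases le_total (1 / 3) w with hc2 | hc2
    · refine (h2 hc2 (by linarith)).trans ?_
      exact mul_le_mul_of_nonneg_right hH' hnn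
    · have h4 := hch' 3 (by norm_num) (by push_cast; linarith)
      norm_num at h4
      refine (h3 (by linarith) hc2).trans ?_
      exact mul_le_mul_of_nonneg_right h4 hnn
  refine ⟨key _ _ (by norm_num) (by norm_num) ?_ ?_ ?_, key _ _ (by norm_num) (by norm_num) ?_ ?_ ?_,
    key' _ _ (by norm_num) (by norm_num) ?_ ?_⟩
  · intro h1
    linarith
  · intro h1 h2
    nlinarith [mul_nonneg (sub_nonneg.2 h1) (sub_nonneg.2 h2)]
  · intro h1 h2
    nlinarith [mul_nonneg (sub_nonneg.2 h1) (sub_nonneg.2 h2),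
      mul_nonneg (mul_nonneg (sub_nonneg.2 h1) (sub_nonneg.2 h2)) hv0.le]
  · intro h1
    linarith
  · intro h1 h2
    nlinarith [mul_nonneg (sub_nonneg.2 h1) (sub_nonneg.2 h2)]
  · intro h1 h2
    nlinarith [mul_nonneg (sub_nonneg.2 h1) (sub_nonneg.2 h2),
      mul_nonneg (mul_nonneg (sub_nonneg.2 h1) (sub_nonneg.2 h2)) hv0.le,
      mul_nonneg (mul_nonneg (sub_nonneg.2 h1) (sub_nonneg.2 h2)) (by linarith : 0 ≤ 1 - v)]
  · intro h1 h2
    linarith
  · intro h1 h2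
    nlinarith [mul_nonneg (sub_nonneg.2 h1) (sub_nonneg.2 h2)]

end Pool.Agent.W680.IR
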