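import Pool.Agent.W593.IR.Stm3

set_option autoImplicit false

/-! # IR3-PH4: polynomial inequality for `k = 4` -/

namespace Pool.Agent.W680.IR

open Pool.Agent.W593.IR

lemma ph42 (ρ : ℝ) : Ph 4 2 ρ = ρ ^ 4 / 4 + 2 * (1 - ρ) * ρ ^ 3 + 6 * (1 - ρ) ^ 2 * ρ ^ 2 +
    4 * (1 - ρ) ^ 3 * ρ + (1 - ρ) ^ 4 := by
  unfold Ph
  simp only [Finset.sum_range_succ, Finset.sum_range_zero]
  norm_num [Nat.choose]
  ring

lemma ph43 (ρ : ℝ) : Ph 4 3 ρ = 8 / 27 * ρ ^ 4 + 16 / 9 * (1 - ρ) * ρ ^ 3 +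
    4 * (1 - ρ) ^ 2 * ρ ^ 2 + 4 * (1 - ρ) ^ 3 * ρ + (1 - ρ) ^ 4 := by
  unfold Ph
  simp only [Finset.sum_range_succ, Finset.sum_range_zero]
  norm_num [Nat.choose]
  ring

theorem ph4 : S_PH4 := by
  intro ρ h1 h2
  rw [ph42, ph43]
  rcases le_total ρ (89302 / 100000) with hc | hc
  · obtain ⟨t, ht⟩ : ∃ t, t = 89302 / 100000 - ρ := ⟨_, rfl⟩
    have ht0 : 0 ≤ t := by rw [ht]; linarith
    have ht1 : t ≤ 3 / 100 := by rw [ht]; linarith
    have hρ : ρ = 89302 / 100000 - t := by rw [ht]; ring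
    have t2 : 0 ≤ t ^ 2 := by positivity
    have t2' : t ^ 2 ≤ 3 / 100 * t := by nlinarith
    have t3 : 0 ≤ t ^ 3 := by positivity
    have t3' : t ^ 3 ≤ 3 / 100 * t ^ 2 := by nlinarith
    have t4 : 0 ≤ t ^ 4 := by positivity
    have t4' : t ^ 4 ≤ 3 / 100 * t ^ 3 := by nlinarith
    constructor
    · refine (min_le_right _ _).trans ?_
      rw [hρ]
      ring_nf
      nlinarith
    · refine (min_le_right _ _).trans ?_
      rw [hρ]
      ring_nf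
      nlinarith
  · obtain ⟨t, ht⟩ : ∃ t, t = ρ - 89302 / 100000 := ⟨_, rfl⟩
    have ht0 : 0 ≤ t := by rw [ht]; linarith
    have ht1 : t ≤ 2 / 100 := by rw [ht]; linarith
    have hρ : ρ = 89302 / 100000 + t := by rw [ht]; ring
    have t2 : 0 ≤ t ^ 2 := by positivity
    have t2' : t ^ 2 ≤ 2 / 100 * t := by nlinarith
    have t3 : 0 ≤ t ^ 3 := by positivity
    have t3' : t ^ 3 ≤ 2 / 100 * t ^ 2 := by nlinarith
    have t4 : 0 ≤ t ^ 4 := by positivity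
    have t4' : t ^ 4 ≤ 2 / 100 * t ^ 3 := by nlinarith
    constructor
    · refine (min_le_left _ _).trans ?_
      rw [hρ]
      ring_nf
      nlinarith
    · refine (min_le_left _ _).trans ?_
      rw [hρ]
      ring_nf
      nlinarith

end Pool.Agent.W680.IR
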